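import Pool.Agent.TH525.PF.Hyp

/-!
# Skew products with circle fibres: finitely many attractors for almost every rotation, unless a
# zero exponent persists outside mode-locking

Written by helper525.
-/

namespace Pool.Agent.Results.MP_3a2b62_an.AlmostEveryRotation

open MeasureTheory Pool.Agent.H728R2.OS Pool.Agent.H728R2.FA Pool.Agent.TH525.PF

/-- Let `T` be a homeomorphism of a compact metric space `B` with an ergodic probability measure
`m`, and let `f (x, y) = (T x, f_x y)` be a homeomorphism of `B × 𝕋` whose fibre maps `f_x` are
orientation-preserving `C¹` diffeomorphisms of the circle with lifts `F x` and derivatives depending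
continuously on `(x, y)`. Let `μ` be a measure on `B × 𝕋` with the same null sets as
`m × Lebesgue`. For Lebesgue almost every `θ` the map `f_θ (x, y) = f (x, y) + (0, θ)` has finitely
many attractors whose basins cover `μ`-almost every point, or else `f_θ` is not mode-locked (its
fibred rotation number is not constant near `θ`) and it has an ergodic invariant probability
measure over `m` whose fibre Lyapunov exponent is zero. -/
theorem result {B : Type*} [MetricSpace B] [CompactSpace B] [MeasurableSpace B] [BorelSpace B]
    (T : B ≃ₜ B) (m : Measure B) [IsProbabilityMeasure m] (erg : Ergodic T m)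
    (f : (B × Circ) ≃ₜ (B × Circ)) (F : B → ℝ → ℝ) (hF : FibreLift T f F)
    (μ : Measure (B × Circ)) (h1 : μ ≪ m.prod volume) (h2 : m.prod volume ≪ μ) :
    ∀ᵐ θ : ℝ, FiniteAttractors μ (rotated f θ) ∨ (¬ ModeLocked m T F θ ∧
      ∃ ν : Measure (B × Circ), IsProbabilityMeasure ν ∧ Ergodic (rotated f θ) ν ∧
        ν.map Prod.fst = m ∧ exponent F ν = 0) :=
  main_gen T erg f hF μ h1 h2

end Pool.Agent.Results.MP_3a2b62_an.AlmostEveryRotation
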